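import Pool.Agent.VLF.Stmts
import Pool.Agent.Helper25_ZOL.Deg

/-!
# VLF row CMP: composition
-/

set_option autoImplicit false

namespace Pool.Agent.VLF.H81

open Pool.Agent.ZOL Pool.Agent.VLF Finset

theorem cmp (hnew : NewStmt) : CmpStmt := by
  intro d D n h f hd hf A hA
  classical
  obtain ⟨N, hN⟩ : ∃ N, ∀ B ∈ A.powerset, h B ≤ N :=
    ⟨A.powerset.sup h, fun B hB => Finset.le_sup hB⟩
  have h1 : ∀ B ∈ A.powerset, f (h B) =
      ∑ j ∈ range (N + 1), ((h B).choose j : ℤ) * dlt^[j] f 0 := by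
    intro B hB
    rw [hnew f (h B)]
    refine Finset.sum_subset (fun j hj => ?_) (fun j _ hj => ?_)
    · have := hN B hB
      rw [mem_range] at hj ⊢
      omega
    · rw [mem_range, not_lt] at hj
      rw [Nat.choose_eq_zero_of_lt (by omega), Nat.cast_zero, zero_mul]
  have h2 : ∑ B ∈ A.powerset, (-1 : ℤ) ^ B.card * f (h B) =
      ∑ j ∈ range (N + 1), dlt^[j] f 0 *
        ∑ B ∈ A.powerset, (-1 : ℤ) ^ B.card * ((h B).choose j : ℤ) := by
    rw [Finset.sum_congr rfl fun B hB => by rw [h1 B hB, Finset.mul_sum], Finset.sum_comm]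
    refine Finset.sum_congr rfl fun j _ => ?_
    rw [Finset.mul_sum]
    exact Finset.sum_congr rfl fun B _ => by ring
  rw [h2]
  refine Finset.dvd_sum fun j _ => ?_
  rcases Nat.lt_or_ge D j with hj | hj
  · exact Dvd.dvd.mul_right (hf j hj) _
  · have h3 := H25.deg2 (fun S => (h S : ℤ)) d j hd A
      (lt_of_le_of_lt (Nat.mul_le_mul_left d hj) hA)
    have h4 : ∑ B ∈ A.powerset, (-1 : ℤ) ^ B.card * ((h B).choose j : ℤ) = 0 := by
      rw [← h3]
      refine Finset.sum_congr rfl fun B _ => ?_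
      show _ = (-1 : ℤ) ^ B.card * Ring.choose ((h B : ℕ) : ℤ) j
      rw [Ring.choose_natCast]
    rw [h4, mul_zero]
    exact dvd_zero n

end Pool.Agent.VLF.H81
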